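import Mathlib
import Pool.Agent.Helper276.VdC

set_option autoImplicit false
open Filter Topology MeasureTheory Set

/-! Oscillatory integrals for a Riesz product with a nonlinear phase. -/

namespace Pool.Agent.K3h48.WS

/-- the argument of the Cayley transform -/
noncomputable def th (x : ℝ) : ℝ := 2 * Real.arctan x + Real.pi

/-- the phase factor -/
noncomputable def E (s : ℝ) (n : ℕ) (x : ℝ) : ℂ := Complex.exp (Complex.I * ((s * x + n * th x : ℝ) : ℂ))

lemma th_deriv (x : ℝ) : HasDerivAt th (2 * (1 / (1 + x ^ 2))) x := by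
  unfold th
  exact ((Real.hasDerivAt_arctan x).const_mul 2).add_const _

lemma th_cont : Continuous th := by
  unfold th
  fun_prop

lemma E_cont (s : ℝ) (n : ℕ) : Continuous (E s n) := by
  unfold E
  have := th_cont
  fun_prop

lemma norm_E (s : ℝ) (n : ℕ) (x : ℝ) : ‖E s n x‖ = 1 := by
  unfold E
  rw [mul_comm, Complex.norm_exp_ofReal_mul_I]

lemma E_add (s t : ℝ) (n : ℕ) (x : ℝ) : E (s + t) n x = E s n x * Complex.exp (Complex.I * ((t * x : ℝ) : ℂ)) := by
  unfold E
  rw [← Complex.exp_add]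
  congr 1
  push_cast
  ring

lemma ph1 (s : ℝ) (n : ℕ) (x : ℝ) :
    HasDerivAt (fun x => s * x + n * th x) (s + n * (2 * (1 / (1 + x ^ 2)))) x := by
  have h1 : HasDerivAt (fun x : ℝ => s * x) s x := by
    simpa using (hasDerivAt_id x).const_mul s
  exact h1.add ((th_deriv x).const_mul _)

lemma ph2 (s : ℝ) (n : ℕ) (x : ℝ) :
    HasDerivAt (fun x : ℝ => s + n * (2 * (1 / (1 + x ^ 2)))) (-(4 * n * x / (1 + x ^ 2) ^ 2)) x := by
  have h0 : HasDerivAt (fun x : ℝ => 1 + x ^ 2) (2 * x) x := by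
    simpa using (hasDerivAt_pow 2 x).const_add 1
  have hne : (1 + x ^ 2) ≠ 0 := by positivity
  have h1 := ((h0.inv hne).const_mul 2).const_mul (n : ℝ)
  have h2 := h1.const_add s
  have e1 : (fun x : ℝ => s + n * (2 * (1 / (1 + x ^ 2)))) =
      fun x : ℝ => s + n * (2 * (fun x : ℝ => 1 + x ^ 2)⁻¹ x) := by
    funext y
    simp [one_div]
  rw [e1]
  refine h2.congr_deriv ?_
  field_simp
  ring

/-- the basic bound, second derivative -/
lemma F_le_n (s : ℝ) (n : ℕ) (hn : 1 ≤ n) :
    ‖∫ x in (1 : ℝ)..2, E s n x‖ ≤ 15 / Real.sqrt n := by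
  have hn' : (1 : ℝ) ≤ n := by exact_mod_cast hn
  have h := Pool.Agent.Helper276.VdC.second_test_neg (ψ := fun x => s * x + n * th x)
    (ψ1 := fun x => s + n * (2 * (1 / (1 + x ^ 2)))) (ψ2 := fun x => -(4 * n * x / (1 + x ^ 2) ^ 2))
    (a := 1) (b := 2) (m := (32 / 100) * n) (by norm_num) (by positivity)
    (fun x _ => ph1 s n x) (fun x _ => ph2 s n x)
    (by
      apply ContinuousOn.neg
      apply ContinuousOn.div (by fun_prop) (by fun_prop)
      intro x _
      positivity)
    (by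
      intro x hx
      rw [neg_le_neg_iff]
      rw [le_div_iff₀ (by positivity)]
      obtain ⟨hx1, hx2⟩ := hx
      -- (32/100) n (1 + x^2)^2 ≤ 4 n x
      have : (32 / 100 : ℝ) * (1 + x ^ 2) ^ 2 ≤ 4 * x := by
        nlinarith [mul_nonneg (sub_nonneg.2 hx1) (sub_nonneg.2 hx2),
          mul_nonneg (mul_nonneg (sub_nonneg.2 hx1) (sub_nonneg.2 hx2)) (by linarith : (0:ℝ) ≤ x),
          mul_nonneg (mul_nonneg (sub_nonneg.2 hx1) (sub_nonneg.2 hx2)) (sq_nonneg x)]
      nlinarith)
  refine h.trans ?_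
  have h1 : (8 / 15 : ℝ) ^ 2 ≤ 32 / 100 := by norm_num
  have h2 : (8 / 15 : ℝ) * Real.sqrt n ≤ Real.sqrt (32 / 100 * n) := by
    apply Real.le_sqrt_of_sq_le
    rw [mul_pow, Real.sq_sqrt (by linarith)]
    exact mul_le_mul_of_nonneg_right h1 (by linarith)
  have h3 : 0 < Real.sqrt n := Real.sqrt_pos.2 (by linarith)
  rw [div_le_div_iff₀ (by positivity) h3]
  nlinarith

lemma conj_E (s : ℝ) (n : ℕ) (x : ℝ) :
    Complex.exp (Complex.I * ((-(s * x + n * th x) : ℝ) : ℂ)) = (starRingEnd ℂ) (E s n x) := by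
  unfold E
  rw [← Complex.exp_conj]
  congr 1
  simp
  ring

/-- the basic bound, uniform in `n` -/
lemma F_le_s (s : ℝ) (n : ℕ) (hs : 1 ≤ |s|) :
    ‖∫ x in (1 : ℝ)..2, E s n x‖ ≤ 30 / Real.sqrt |s| := by
  have hs0 : 0 < |s| := by linarith
  have hss : 1 ≤ Real.sqrt |s| := by
    rw [Real.one_le_sqrt]; exact hs
  have hsq : Real.sqrt |s| * Real.sqrt |s| = |s| := Real.mul_self_sqrt hs0.le
  rcases le_or_gt (4 * (n : ℝ)) |s| with h | h
  · -- first derivative test for the conjugate
    have h1 := Pool.Agent.Helper276.VdC.first_test (ψ := fun x => -(s * x + n * th x))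
      (ψ1 := fun x => -(s + n * (2 * (1 / (1 + x ^ 2))))) (ψ2 := fun x => - -(4 * n * x / (1 + x ^ 2) ^ 2))
      (a := 1) (b := 2) (l := |s| / 2) (by norm_num) (by positivity)
      (fun x _ => (ph1 s n x).neg) (fun x _ => (ph2 s n x).neg)
      (by
        apply ContinuousOn.neg
        apply ContinuousOn.neg
        apply ContinuousOn.div (by fun_prop) (by fun_prop)
        intro x _
        positivity)
      (by
        intro x hx
        rw [neg_neg]
        have : 0 ≤ x := by linarith [hx.1]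
        positivity)
      (by
        intro x hx
        rw [abs_neg]
        have h2 : |(n : ℝ) * (2 * (1 / (1 + x ^ 2)))| ≤ (n : ℝ) := by
          rw [abs_of_nonneg (by positivity)]
          have h3 : 2 * (1 / (1 + x ^ 2)) ≤ 1 := by
            rw [mul_one_div, div_le_one (by positivity)]
            nlinarith [hx.1]
          nlinarith [Nat.cast_nonneg (α := ℝ) n]
        have h4 : |s| - |(n : ℝ) * (2 * (1 / (1 + x ^ 2)))| ≤ |s + n * (2 * (1 / (1 + x ^ 2)))| := by
          have := abs_sub_abs_le_abs_sub s (-(n * (2 * (1 / (1 + x ^ 2)))))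
          rwa [abs_neg, sub_neg_eq_add] at this
        linarith)
    have h2 : ‖∫ x in (1 : ℝ)..2, E s n x‖ =
        ‖∫ x in (1 : ℝ)..2, Complex.exp (Complex.I * ((-(s * x + n * th x) : ℝ) : ℂ))‖ := by
      rw [Pool.Agent.Helper276.VdC.norm_integral_conj]
      rfl
    rw [h2]
    refine h1.trans ?_
    rw [div_le_div_iff₀ (by positivity) (by positivity)]
    nlinarith
  · have hn : 1 ≤ n := by
      by_contra hcon
      have : n = 0 := by omega
      subst this
      simp at h
      linarith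
    refine (F_le_n s n hn).trans ?_
    have h3 : Real.sqrt |s| ≤ 2 * Real.sqrt n := by
      rw [Real.sqrt_le_left (by positivity), mul_pow, Real.sq_sqrt (by positivity)]
      linarith
    have h4 : 0 < Real.sqrt n := Real.sqrt_pos.2 (by exact_mod_cast hn)
    rw [div_le_div_iff₀ h4 (by positivity)]
    nlinarith

end Pool.Agent.K3h48.WS
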