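import Mathlib
import Pool.Agent.K3h48.WS.Est

set_option autoImplicit false
open Filter Topology MeasureTheory Set

/-! Partial Riesz products and their generalised Fourier coefficients. -/

namespace Pool.Agent.K3h48.WS

/-- frequencies -/
noncomputable def fr (k : ℕ) : ℝ := (1048576 : ℝ) ^ (k + 1)

/-- partial Riesz products -/
noncomputable def gg (K : ℕ) (x : ℝ) : ℝ := ∏ k ∈ Finset.range K, (1 + Real.cos (fr k * x))

lemma gg_cont (K : ℕ) : Continuous (gg K) := by
  unfold gg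
  exact continuous_finsetProd _ fun k _ => by fun_prop

lemma gg_nonneg (K : ℕ) (x : ℝ) : 0 ≤ gg K x := by
  unfold gg
  apply Finset.prod_nonneg
  intro k _
  linarith [Real.neg_one_le_cos (fr k * x)]

lemma gg_succ (K : ℕ) (x : ℝ) : gg (K + 1) x = gg K x * (1 + Real.cos (fr K * x)) := by
  unfold gg
  rw [Finset.prod_range_succ]

/-- generalised Fourier coefficients -/
noncomputable def A (K : ℕ) (s : ℝ) (n : ℕ) : ℂ := ∫ x in (1 : ℝ)..2, E s n x * (gg K x : ℂ)

lemma A_int (K : ℕ) (s : ℝ) (n : ℕ) (a b : ℝ) :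
    IntervalIntegrable (fun x => E s n x * (gg K x : ℂ)) volume a b := by
  apply Continuous.intervalIntegrable
  exact (E_cont s n).mul (Complex.continuous_ofReal.comp (gg_cont K))

lemma A_zero (s : ℝ) (n : ℕ) : A 0 s n = ∫ x in (1 : ℝ)..2, E s n x := by
  unfold A gg
  simp

lemma A_succ (K : ℕ) (s : ℝ) (n : ℕ) :
    A (K + 1) s n = A K s n + 1 / 2 * (A K (s + fr K) n + A K (s + -fr K) n) := by
  unfold A
  rw [← intervalIntegral.integral_add (A_int K _ n 1 2) (A_int K _ n 1 2),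
    ← intervalIntegral.integral_const_mul, ← intervalIntegral.integral_add (A_int K _ n 1 2)]
  · apply intervalIntegral.integral_congr
    intro x _
    simp only
    rw [gg_succ, E_add, E_add]
    have h : ((Real.cos (fr K * x) : ℝ) : ℂ) =
        1 / 2 * (Complex.exp (Complex.I * ((fr K * x : ℝ) : ℂ)) +
          Complex.exp (Complex.I * ((-fr K * x : ℝ) : ℂ))) := by
      rw [Complex.ofReal_cos, Complex.cos]
      push_cast
      ring_nf
    push_cast at h ⊢
    rw [h]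
    ring
  · exact ((A_int K _ n 1 2).add (A_int K _ n 1 2)).const_mul _

/-- sums of frequencies -/
noncomputable def SS (K : ℕ) : ℝ := ∑ k ∈ Finset.range K, fr k

lemma SS_succ (K : ℕ) : SS (K + 1) = SS K + fr K := by
  unfold SS; rw [Finset.sum_range_succ]

lemma fr_pos (K : ℕ) : 0 < fr K := by unfold fr; positivity

lemma SS_nonneg (K : ℕ) : 0 ≤ SS K := Finset.sum_nonneg fun k _ => (fr_pos k).le

lemma fr_succ (K : ℕ) : fr (K + 1) = 1048576 * fr K := by unfold fr; ring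

lemma SS_le (K : ℕ) : 4 * SS K ≤ fr K := by
  induction K with
  | zero => simp [SS]; exact (fr_pos 0).le
  | succ K ih =>
    rw [SS_succ, fr_succ]
    have := fr_pos K
    linarith

lemma fr_ge (K : ℕ) : 1048576 ≤ fr K := by
  unfold fr
  calc (1048576 : ℝ) = 1048576 ^ 1 := by norm_num
    _ ≤ 1048576 ^ (K + 1) := pow_le_pow_right₀ (by norm_num) (by omega)

lemma fr_mono {K L : ℕ} (h : K ≤ L) : fr K ≤ fr L := by
  unfold fr
  exact pow_le_pow_right₀ (by norm_num) (by omega)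

lemma sqrt_fr (K : ℕ) : Real.sqrt (fr K) = 1024 ^ (K + 1) := by
  unfold fr
  rw [show (1048576 : ℝ) ^ (K + 1) = (1024 ^ (K + 1)) ^ 2 by rw [← pow_mul, mul_comm, pow_mul]; norm_num]
  exact Real.sqrt_sq (by positivity)

lemma half_sum (u a b : ℂ) (U V : ℝ) (hu : ‖u‖ ≤ U) (ha : ‖a‖ ≤ V) (hb : ‖b‖ ≤ V) :
    ‖u + 1 / 2 * (a + b)‖ ≤ U + V := by
  calc ‖u + 1 / 2 * (a + b)‖ ≤ ‖u‖ + ‖1 / 2 * (a + b)‖ := norm_add_le _ _
    _ ≤ U + V := by
      apply add_le_add hu
      rw [norm_mul]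
      have h1 : ‖(1 / 2 : ℂ)‖ = 1 / 2 := by norm_num
      rw [h1]
      have := norm_add_le a b
      linarith

/-- first bound -/
lemma A_le_n (K : ℕ) (s : ℝ) (n : ℕ) (hn : 1 ≤ n) : ‖A K s n‖ ≤ 2 ^ K * (15 / Real.sqrt n) := by
  induction K generalizing s with
  | zero => rw [A_zero]; simpa using F_le_n s n hn
  | succ K ih =>
    rw [A_succ]
    refine (half_sum _ _ _ _ _ (ih s) (ih _) (ih _)).trans (le_of_eq ?_)
    ring

/-- second bound -/
lemma A_le_s (K : ℕ) (s : ℝ) (n : ℕ) (hs : SS K + 1 ≤ |s|) :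
    ‖A K s n‖ ≤ 2 ^ K * (30 / Real.sqrt (|s| - SS K)) := by
  induction K generalizing s with
  | zero =>
    rw [A_zero]
    have h0 : SS 0 = 0 := by simp [SS]
    rw [h0] at hs ⊢
    simpa using F_le_s s n (by linarith)
  | succ K ih =>
    rw [A_succ]
    have hfr := fr_pos K
    rw [SS_succ] at hs ⊢
    have hd : 0 < |s| - (SS K + fr K) := by linarith
    have key : ∀ s' : ℝ, |s| - fr K ≤ |s'| →
        ‖A K s' n‖ ≤ 2 ^ K * (30 / Real.sqrt (|s| - (SS K + fr K))) := by
      intro s' hs'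
      refine (ih s' (by linarith)).trans ?_
      have h1 : Real.sqrt (|s| - (SS K + fr K)) ≤ Real.sqrt (|s'| - SS K) :=
        Real.sqrt_le_sqrt (by linarith)
      have h2 : 0 < Real.sqrt (|s| - (SS K + fr K)) := Real.sqrt_pos.2 hd
      gcongr
    refine (half_sum _ _ _ _ _ (key s (by linarith)) (key _ ?_) (key _ ?_)).trans (le_of_eq (by ring))
    · have := abs_sub_abs_le_abs_sub s (-fr K)
      rw [abs_neg, abs_of_pos hfr, sub_neg_eq_add] at this
      exact this
    · have := abs_sub_abs_le_abs_sub s (fr K)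
      rw [abs_of_pos hfr, sub_eq_add_neg s] at this
      exact this

/-- the increments -/
noncomputable def dl (K : ℕ) : ℝ := (1 / 16) * (1 / 512) ^ K

lemma dl_pos (K : ℕ) : 0 < dl K := by unfold dl; positivity

lemma A_le_dl (K : ℕ) (s : ℝ) (n : ℕ) (hs : (3 / 4) * fr K ≤ |s|) : ‖A K s n‖ ≤ dl K := by
  have h1 := SS_le K
  have h2 := fr_ge K
  refine (A_le_s K s n (by linarith)).trans ?_
  have h3 : (1 / 4) * fr K ≤ |s| - SS K := by linarith
  have h4 : (1 / 2) * 1024 ^ (K + 1) ≤ Real.sqrt (|s| - SS K) := by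
    rw [← sqrt_fr]
    apply Real.le_sqrt_of_sq_le
    rw [mul_pow, Real.sq_sqrt (fr_pos K).le]
    linarith
  have h5 : 2 ^ K * (30 / Real.sqrt (|s| - SS K)) ≤ 2 ^ K * (30 / ((1 / 2) * 1024 ^ (K + 1))) := by
    gcongr
  refine h5.trans ?_
  unfold dl
  have e1 : (2 : ℝ) ^ K * (30 / ((1 / 2) * 1024 ^ (K + 1))) = (60 / 1024) * (1 / 512) ^ K := by
    have : (1024 : ℝ) ^ K = 2 ^ K * 512 ^ K := by rw [← mul_pow]; norm_num
    rw [pow_succ, this, one_div_pow]
    field_simp
    norm_num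
  rw [e1]
  exact mul_le_mul_of_nonneg_right (by norm_num) (by positivity)

lemma A_diff (K : ℕ) (s : ℝ) (n : ℕ) (hs : |s| ≤ (1 / 4) * fr K) :
    ‖A (K + 1) s n - A K s n‖ ≤ dl K := by
  rw [A_succ]
  have hfr := fr_pos K
  have e : A K s n + 1 / 2 * (A K (s + fr K) n + A K (s + -fr K) n) - A K s n =
      0 + 1 / 2 * (A K (s + fr K) n + A K (s + -fr K) n) := by ring
  rw [e]
  have h1 : (3 / 4) * fr K ≤ |s + fr K| := by
    have := abs_sub_abs_le_abs_sub (fr K) (-s)
    rw [abs_neg, abs_of_pos hfr, sub_neg_eq_add, add_comm] at this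
    linarith
  have h2 : (3 / 4) * fr K ≤ |s + -fr K| := by
    have := abs_sub_abs_le_abs_sub (fr K) s
    rw [abs_of_pos hfr, abs_sub_comm, sub_eq_add_neg s] at this
    linarith
  have := half_sum 0 (A K (s + fr K) n) (A K (s + -fr K) n) 0 (dl K) (by simp)
    (A_le_dl K _ n h1) (A_le_dl K _ n h2)
  linarith

lemma A_tail (K L : ℕ) (hKL : K ≤ L) (s : ℝ) (n : ℕ) (hs : |s| ≤ (1 / 4) * fr K) :
    ‖A L s n - A K s n‖ ≤ 2 * dl K - 2 * dl L := by
  induction L, hKL using Nat.le_induction with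
  | base => simp
  | succ L hKL ih =>
    have h1 := A_diff L s n (hs.trans (by have := fr_mono hKL; linarith))
    have e : A (L + 1) s n - A K s n = (A (L + 1) s n - A L s n) + (A L s n - A K s n) := by ring
    rw [e]
    refine (norm_add_le _ _).trans ?_
    have h2 : dl (L + 1) = (1 / 512) * dl L := by unfold dl; ring
    have h3 := dl_pos L
    linarith

lemma A_tail' (K L : ℕ) (hKL : K ≤ L) (s : ℝ) (n : ℕ) (hs : |s| ≤ (1 / 4) * fr K) :
    ‖A L s n - A K s n‖ ≤ 2 * dl K := by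
  have := A_tail K L hKL s n hs
  have := dl_pos L
  linarith

/-- the mass -/
noncomputable def mass (K : ℕ) : ℝ := ∫ x in (1 : ℝ)..2, gg K x

lemma A_mass (K : ℕ) : A K 0 0 = (mass K : ℂ) := by
  unfold A mass
  rw [← intervalIntegral.integral_ofReal]
  apply intervalIntegral.integral_congr
  intro x _
  simp [E]

lemma mass_zero : mass 0 = 1 := by
  unfold mass gg
  simp
  norm_num

lemma mass_bound (K : ℕ) : |mass K - 1| ≤ 1 / 8 := by
  have h := A_tail' 0 K (Nat.zero_le _) 0 0 (by simp; exact (fr_pos 0).le)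
  rw [A_mass, A_mass, mass_zero] at h
  have e : ((mass K : ℂ) - ((1 : ℝ) : ℂ)) = ((mass K - 1 : ℝ) : ℂ) := by push_cast; ring
  rw [e, Complex.norm_real, Real.norm_eq_abs] at h
  refine h.trans ?_
  unfold dl
  norm_num

lemma mass_lb (K : ℕ) : 7 / 8 ≤ mass K := by
  have := abs_le.1 (mass_bound K)
  linarith [this.1]

lemma mass_ub (K : ℕ) : mass K ≤ 9 / 8 := by
  have := abs_le.1 (mass_bound K)
  linarith [this.2]

lemma mass_pos (K : ℕ) : 0 < mass K := by linarith [mass_lb K]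

/-- decay in `n`, uniformly for all partial products -/
lemma A_decay (s : ℝ) (n K L : ℕ) (hn : 1 ≤ n) (hKL : K ≤ L) (hs : |s| ≤ (1 / 4) * fr K) :
    ‖A L s n‖ ≤ 2 ^ K * (15 / Real.sqrt n) + 2 * dl K := by
  have h1 := A_tail' K L hKL s n hs
  have h2 := A_le_n K s n hn
  have e : A L s n = (A L s n - A K s n) + A K s n := by ring
  rw [e]
  refine (norm_add_le _ _).trans ?_
  linarith

/-- no decay along the frequencies -/
lemma A_large (K L : ℕ) (hKL : K + 1 ≤ L) : 1 / 8 ≤ (A L (-fr K) 0).re := by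
  have hfr := fr_pos K
  have h1 := A_tail' (K + 1) L hKL (-fr K) 0 (by
    rw [abs_neg, abs_of_pos hfr, fr_succ]; linarith)
  have h2 : A (K + 1) (-fr K) 0 = A K (-fr K) 0 + 1 / 2 * ((mass K : ℂ) + A K (-fr K + -fr K) 0) := by
    rw [A_succ]
    congr 3
    rw [← A_mass]
    congr 1
    ring
  have h3 : ‖A K (-fr K) 0‖ ≤ dl K := A_le_dl K _ 0 (by rw [abs_neg, abs_of_pos hfr]; linarith)
  have h4 : ‖A K (-fr K + -fr K) 0‖ ≤ dl K := A_le_dl K _ 0 (by
    rw [show -fr K + -fr K = -(2 * fr K) by ring, abs_neg, abs_of_pos (by linarith)]; linarith)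
  have h5 := (abs_le.1 (Complex.abs_re_le_norm (A L (-fr K) 0 - A (K + 1) (-fr K) 0))).1
  have h6 := (abs_le.1 (Complex.abs_re_le_norm (A K (-fr K) 0))).1
  have h7 := (abs_le.1 (Complex.abs_re_le_norm (A K (-fr K + -fr K) 0))).1
  rw [Complex.sub_re] at h5
  have h8 : (A (K + 1) (-fr K) 0).re =
      (A K (-fr K) 0).re + 1 / 2 * (mass K + (A K (-fr K + -fr K) 0).re) := by
    rw [h2]
    have : (1 / 2 * ((mass K : ℂ) + A K (-fr K + -fr K) 0)) =
        ((1 / 2 : ℝ) : ℂ) * ((mass K : ℂ) + A K (-fr K + -fr K) 0) := by push_cast; ring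
    rw [this, Complex.add_re, Complex.re_ofReal_mul, Complex.add_re, Complex.ofReal_re]
  have h9 := mass_lb K
  have hdK : dl K ≤ 1 / 16 := by
    unfold dl
    have : ((1 : ℝ) / 512) ^ K ≤ 1 := pow_le_one₀ (by norm_num) (by norm_num)
    linarith
  have hdK1 : dl (K + 1) ≤ 1 / 16 * (1 / 512) := by
    have : dl (K + 1) = (1 / 512) * dl K := by unfold dl; ring
    rw [this]; linarith
  linarith

end Pool.Agent.K3h48.WS
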