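import Mathlib
import Pool.Agent.K3h48.WS.Riesz

set_option autoImplicit false
open Filter Topology MeasureTheory Set
open scoped BoundedContinuousFunction ENNReal NNReal

/-! The limit measure on `[1, 2]`. -/

namespace Pool.Agent.K3h48.WS

/-- the interval `[1, 2]` -/
abbrev X : Type := Set.Icc (1 : ℝ) 2

lemma h12 : (1 : ℝ) ≤ 2 := by norm_num

/-- the normalised densities -/
noncomputable def dens (K : ℕ) (x : ℝ) : ℝ≥0∞ := ENNReal.ofReal (gg K x / mass K)

/-- the measures with these densities on the line -/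
noncomputable def nu (K : ℕ) : Measure ℝ := (volume.restrict (Icc (1 : ℝ) 2)).withDensity (dens K)

lemma dens_meas (K : ℕ) : Measurable (dens K) :=
  (((gg_cont K).measurable).div_const _).ennreal_ofReal

lemma int_nu (K : ℕ) (f : ℝ → ℂ) :
    ∫ x, f x ∂(nu K) = (1 / (mass K : ℂ)) * ∫ x in (1 : ℝ)..2, f x * (gg K x : ℂ) := by
  unfold nu
  have hd : dens K = fun x => ((gg K x / mass K).toNNReal : ℝ≥0∞) := by
    funext x; rfl
  rw [hd, integral_withDensity_eq_integral_smul
    (((gg_cont K).measurable).div_const _).real_toNNReal]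
  rw [intervalIntegral.integral_of_le h12, ← integral_const_mul, integral_Icc_eq_integral_Ioc]
  apply integral_congr_ae
  filter_upwards with x
  have h1 : (((gg K x / mass K).toNNReal : ℝ≥0) : ℝ) = gg K x / mass K :=
    Real.coe_toNNReal _ (div_nonneg (gg_nonneg K x) (mass_pos K).le)
  rw [NNReal.smul_def, h1, Complex.real_smul]
  push_cast
  have : (mass K : ℂ) ≠ 0 := by exact_mod_cast (mass_pos K).ne'
  field_simp

lemma nu_prob (K : ℕ) : IsProbabilityMeasure (nu K) := by
  constructor
  unfold nu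
  rw [withDensity_apply _ MeasurableSet.univ, Measure.restrict_univ]
  unfold dens
  rw [← ofReal_integral_eq_lintegral_ofReal]
  · rw [integral_div, integral_Icc_eq_integral_Ioc, ← intervalIntegral.integral_of_le h12]
    change ENNReal.ofReal (mass K / mass K) = 1
    rw [div_self (mass_pos K).ne', ENNReal.ofReal_one]
  · apply Integrable.div_const
    exact ((gg_cont K).continuousOn.integrableOn_Icc)
  · filter_upwards with x
    exact div_nonneg (gg_nonneg K x) (mass_pos K).le

instance (K : ℕ) : IsProbabilityMeasure (nu K) := nu_prob K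

/-- the projection to the interval -/
noncomputable def pr : ℝ → X := Set.projIcc 1 2 h12

lemma pr_cont : Continuous pr := continuous_projIcc

/-- the measures on the interval -/
noncomputable def P (K : ℕ) : ProbabilityMeasure X :=
  ⟨(nu K).map pr, Measure.isProbabilityMeasure_map pr_cont.aemeasurable⟩

lemma int_P (K : ℕ) (f : ℝ → ℂ) (hf : Continuous f) :
    ∫ x : X, f x ∂(P K : Measure X) = (1 / (mass K : ℂ)) * ∫ x in (1 : ℝ)..2, f x * (gg K x : ℂ) := by
  change ∫ x : X, f x ∂((nu K).map pr) = _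
  rw [integral_map pr_cont.aemeasurable]
  · rw [int_nu K (fun x => f (pr x))]
    congr 1
    apply intervalIntegral.integral_congr
    intro x hx
    rw [uIcc_of_le h12] at hx
    simp only
    unfold pr
    rw [projIcc_of_mem h12 hx]
  · exact (hf.comp continuous_subtype_val).aestronglyMeasurable

/-- an ultrafilter -/
noncomputable def UF : Ultrafilter ℕ := Filter.hyperfilter ℕ

lemma exists_lim : ∃ μ : ProbabilityMeasure X, Tendsto P (UF : Filter ℕ) (𝓝 μ) := by
  obtain ⟨μ, -, hμ⟩ := isCompact_univ.ultrafilter_le_nhds (UF.map P) (by simp)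
  exact ⟨μ, hμ⟩

/-- the limit measure -/
noncomputable def mu : ProbabilityMeasure X := exists_lim.choose

lemma mu_lim : Tendsto P (UF : Filter ℕ) (𝓝 mu) := exists_lim.choose_spec

lemma int_mu (f : ℝ → ℂ) (hf : Continuous f) :
    Tendsto (fun K => (1 / (mass K : ℂ)) * ∫ x in (1 : ℝ)..2, f x * (gg K x : ℂ)) (UF : Filter ℕ)
      (𝓝 (∫ x : X, f x ∂(mu : Measure X))) := by
  have h := ProbabilityMeasure.tendsto_iff_forall_integral_rclike_tendsto ℂ |>.1 mu_lim
  have h2 := h (BoundedContinuousFunction.mkOfCompact ⟨fun x : X => f x, hf.comp continuous_subtype_val⟩)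
  refine h2.congr (fun K => ?_)
  rw [← int_P K f hf]
  rfl

/-- generalised Fourier coefficients of the limit measure -/
noncomputable def Ahat (s : ℝ) (n : ℕ) : ℂ := ∫ x : X, E s n x ∂(mu : Measure X)

lemma Ahat_lim (s : ℝ) (n : ℕ) :
    Tendsto (fun K => (1 / (mass K : ℂ)) * A K s n) (UF : Filter ℕ) (𝓝 (Ahat s n)) :=
  int_mu (E s n) (E_cont s n)

lemma UF_le : (UF : Filter ℕ) ≤ atTop := Nat.hyperfilter_le_atTop

lemma Ahat_le (s : ℝ) (n K : ℕ) (hn : 1 ≤ n) (hs : |s| ≤ (1 / 4) * fr K) :
    ‖Ahat s n‖ ≤ 2 * (2 ^ K * (15 / Real.sqrt n) + 2 * dl K) := by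
  refine le_of_tendsto (Ahat_lim s n).norm ?_
  have : ∀ᶠ L in (UF : Filter ℕ), K ≤ L := UF_le (eventually_ge_atTop K)
  filter_upwards [this] with L hL
  have h1 := A_decay s n K L hn hL hs
  have h2 := mass_lb L
  rw [norm_mul]
  have h3 : ‖(1 / (mass L : ℂ))‖ ≤ 2 := by
    rw [norm_div, norm_one, Complex.norm_real, Real.norm_of_nonneg (mass_pos L).le,
      div_le_iff₀ (mass_pos L)]
    linarith
  exact mul_le_mul h3 h1 (norm_nonneg _) (by norm_num)

lemma Ahat_large (K : ℕ) : 1 / 9 ≤ (Ahat (-fr K) 0).re := by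
  have h := (Complex.continuous_re.tendsto _).comp (Ahat_lim (-fr K) 0)
  refine ge_of_tendsto h ?_
  have : ∀ᶠ L in (UF : Filter ℕ), K + 1 ≤ L := UF_le (eventually_ge_atTop (K + 1))
  filter_upwards [this] with L hL
  have h1 := A_large K L hL
  have h2 := mass_ub L
  have h3 := mass_pos L
  simp only [Function.comp]
  have e : (1 / (mass L : ℂ)) * A L (-fr K) 0 = ((1 / mass L : ℝ) : ℂ) * A L (-fr K) 0 := by
    push_cast; ring
  rw [e, Complex.re_ofReal_mul, one_div_mul_eq_div, le_div_iff₀ h3]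
  linarith

/-- decay along the powers of the Cayley transform -/
lemma Ahat_tendsto (s : ℝ) : Tendsto (fun n : ℕ => Ahat s n) atTop (𝓝 0) := by
  rw [Metric.tendsto_atTop]
  intro ε hε
  -- choose `K`
  have hdl : Tendsto (fun K : ℕ => 4 * dl K) atTop (𝓝 0) := by
    have h1 : Tendsto (fun K : ℕ => ((1 : ℝ) / 512) ^ K) atTop (𝓝 0) :=
      tendsto_pow_atTop_nhds_zero_of_lt_one (by norm_num) (by norm_num)
    have h2 := (h1.const_mul (1 / 16)).const_mul 4
    simpa [dl] using h2
  have hfr : Tendsto fr atTop atTop := by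
    unfold fr
    exact (tendsto_pow_atTop_atTop_of_one_lt (by norm_num)).comp (tendsto_add_atTop_nat 1)
  obtain ⟨K, hK1, hK2⟩ := ((hdl.eventually_lt_const (half_pos hε)).and
    (hfr.eventually_ge_atTop (4 * |s|))).exists
  have hn : Tendsto (fun n : ℕ => 2 * (2 ^ K * (15 / Real.sqrt n))) atTop (𝓝 0) := by
    have h1 : Tendsto (fun n : ℕ => Real.sqrt n) atTop atTop :=
      Real.tendsto_sqrt_atTop.comp tendsto_natCast_atTop_atTop
    have h2 : Tendsto (fun n : ℕ => 15 / Real.sqrt n) atTop (𝓝 0) := h1.const_div_atTop 15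
    have h3 := (h2.const_mul (2 ^ K)).const_mul 2
    simpa using h3
  obtain ⟨N, hN⟩ := eventually_atTop.1 ((hn.eventually_lt_const (half_pos hε)).and
    (eventually_ge_atTop 1))
  refine ⟨N, fun n hn => ?_⟩
  obtain ⟨h1, h2⟩ := hN n hn
  rw [dist_zero_right]
  have h3 := Ahat_le s n K h2 (by linarith)
  linarith

/-- no decay along the group -/
lemma Ahat_not_tendsto : ¬ Tendsto (fun t : ℝ => Ahat (-t) 0) atTop (𝓝 0) := by
  intro h
  have hfr : Tendsto fr atTop atTop := by
    unfold fr
    exact (tendsto_pow_atTop_atTop_of_one_lt (by norm_num)).comp (tendsto_add_atTop_nat 1)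
  have h1 := (Complex.continuous_re.tendsto _).comp (h.comp hfr)
  have h2 : (1 / 9 : ℝ) ≤ (0 : ℂ).re := by
    refine ge_of_tendsto' h1 (fun K => ?_)
    exact Ahat_large K
  norm_num at h2

end Pool.Agent.K3h48.WS
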