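import Mathlib
import Pool.Agent.K3h48.WS.Meas

set_option autoImplicit false
open Filter Topology MeasureTheory Set
open scoped ENNReal InnerProductSpace ComplexConjugate

/-! Multiplication operators on `L²(μ)`. -/

namespace Pool.Agent.K3h48.WS

/-- the limit measure as a measure -/
noncomputable abbrev m : Measure X := (mu : Measure X)

/-- the Hilbert space -/
abbrev H : Type := Lp ℂ 2 m

/-- multiplication operators by continuous functions -/
noncomputable def M : C(X, ℂ) →L[ℂ] (H →L[ℂ] H) :=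
  ((ContinuousLinearMap.mul ℂ ℂ).holderL m ∞ 2 2) ∘L (ContinuousMap.toLp ∞ m ℂ)

lemma M_coe (φ : C(X, ℂ)) (f : H) : (M φ f : X → ℂ) =ᵐ[m] fun x => φ x * f x := by
  have h1 := (ContinuousLinearMap.mul ℂ ℂ).coeFn_holder (μ := m) (p := ∞) (q := 2) (r := 2)
    (ContinuousMap.toLp ∞ m ℂ φ) f
  have h2 := φ.coeFn_toLp (p := ∞) (𝕜 := ℂ) m
  change (((ContinuousLinearMap.mul ℂ ℂ).holder 2 (ContinuousMap.toLp ∞ m ℂ φ) f : H) : X → ℂ) =ᵐ[m] _
  filter_upwards [h1, h2] with x hx1 hx2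
  rw [hx1, hx2]
  rfl

lemma M_mul (φ ψ : C(X, ℂ)) : M (φ * ψ) = M φ * M ψ := by
  ext f
  have h1 := M_coe (φ * ψ) f
  have h2 := M_coe φ (M ψ f)
  have h3 := M_coe ψ f
  change _ =ᵐ[m] ((M φ (M ψ f) : H) : X → ℂ)
  filter_upwards [h1, h2, h3] with x h1 h2 h3
  rw [h1, h2, h3, ContinuousMap.mul_apply, mul_assoc]

lemma M_one : M 1 = 1 := by
  ext f
  have h1 := M_coe 1 f
  filter_upwards [h1] with x h1
  rw [h1]
  simp

lemma M_pow (φ : C(X, ℂ)) (n : ℕ) : M (φ ^ n) = (M φ) ^ n := by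
  induction n with
  | zero => rw [pow_zero, pow_zero, M_one]
  | succ n ih => rw [pow_succ, pow_succ, M_mul, ih]

lemma norm_M_le (φ : C(X, ℂ)) : ‖M φ‖ ≤ ‖φ‖ := by
  apply ContinuousLinearMap.opNorm_le_bound _ (norm_nonneg _)
  intro f
  have h1 := (ContinuousLinearMap.mul ℂ ℂ).norm_holder_apply_apply_le (μ := m) (p := ∞) (q := 2)
    (r := 2) (ContinuousMap.toLp ∞ m ℂ φ) f
  change ‖(ContinuousLinearMap.mul ℂ ℂ).holder 2 (ContinuousMap.toLp ∞ m ℂ φ) f‖ ≤ _
  refine h1.trans ?_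
  have h2 : ‖ContinuousLinearMap.mul ℂ ℂ‖ ≤ 1 := ContinuousLinearMap.opNorm_mul_le ℂ ℂ
  have h3 : ‖ContinuousMap.toLp ∞ m ℂ φ‖ ≤ ‖φ‖ := by
    have h4 := ContinuousMap.toLp_norm_le (p := ∞) (E := ℂ) (𝕜 := ℂ) m
    have h5 := (ContinuousMap.toLp (E := ℂ) ∞ m ℂ).le_of_opNorm_le h4 φ
    simpa using h5
  calc ‖ContinuousLinearMap.mul ℂ ℂ‖ * ‖ContinuousMap.toLp ∞ m ℂ φ‖ * ‖f‖ ≤ 1 * ‖φ‖ * ‖f‖ := by
        gcongr
    _ = ‖φ‖ * ‖f‖ := by ring

lemma M_toLp (φ a : C(X, ℂ)) : M φ (ContinuousMap.toLp 2 m ℂ a) = ContinuousMap.toLp 2 m ℂ (φ * a) := by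
  apply Lp.ext
  have h1 := M_coe φ (ContinuousMap.toLp 2 m ℂ a)
  have h2 := a.coeFn_toLp (p := 2) (𝕜 := ℂ) m
  have h3 := (φ * a).coeFn_toLp (p := 2) (𝕜 := ℂ) m
  filter_upwards [h1, h2, h3] with x h1 h2 h3
  rw [h1, h2, h3]
  rfl

/-- the exponentials -/
noncomputable def ex (s : ℝ) : C(X, ℂ) := ⟨fun x => E s 0 x, (E_cont s 0).comp continuous_subtype_val⟩

lemma ex_apply (s : ℝ) (x : X) : ex s x = Complex.exp (Complex.I * ((s * (x : ℝ) : ℝ) : ℂ)) := by
  change E s 0 x = _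
  simp [E]

lemma ex_mul (s t : ℝ) : ex s * ex t = ex (s + t) := by
  ext x
  rw [ContinuousMap.mul_apply, ex_apply, ex_apply, ex_apply, ← Complex.exp_add]
  congr 1
  push_cast
  ring

lemma ex_zero : ex 0 = 1 := by
  ext x
  rw [ex_apply]
  simp

lemma norm_ex_le (s : ℝ) : ‖ex s‖ ≤ 1 := by
  rw [ContinuousMap.norm_le _ zero_le_one]
  intro x
  exact (norm_E s 0 x).le

lemma ex_star (s : ℝ) (x : X) : conj (ex s x) = ex (-s) x := by
  rw [ex_apply, ex_apply, ← Complex.exp_conj]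
  congr 1
  simp

/-- the Cayley transform -/
noncomputable def ca : C(X, ℂ) := ⟨fun x => E 0 1 x, (E_cont 0 1).comp continuous_subtype_val⟩

lemma ca_pow (n : ℕ) (x : X) : (ca ^ n) x = E 0 n x := by
  rw [ContinuousMap.pow_apply]
  change (E 0 1 x) ^ n = _
  unfold E
  rw [← Complex.exp_nat_mul]
  congr 1
  push_cast
  ring

lemma E_split (s : ℝ) (n : ℕ) (x : X) : E s n x = ex s x * (ca ^ n) x := by
  rw [ca_pow, ex_apply]
  unfold E
  rw [← Complex.exp_add]
  congr 1
  push_cast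
  ring

/-- the value of the Cayley transform -/
lemma ca_apply (x : X) : ca x = 1 - 2 * (1 / (1 - Complex.I * ((x : ℝ) : ℂ))) := by
  change E 0 1 x = _
  unfold E th
  set y : ℝ := (x : ℝ)
  have h1 : Complex.exp (Complex.I * ((Real.arctan y : ℝ) : ℂ)) =
      (1 + Complex.I * (y : ℂ)) * ((1 / Real.sqrt (1 + y ^ 2) : ℝ) : ℂ) := by
    rw [mul_comm, Complex.exp_mul_I, ← Complex.ofReal_cos, ← Complex.ofReal_sin, Real.cos_arctan,
      Real.sin_arctan]
    push_cast
    ring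
  have hpos : (0 : ℝ) < 1 + y ^ 2 := by positivity
  have h2 : Complex.exp (Complex.I * (((0 : ℝ) * y + ((1 : ℕ) : ℝ) * (2 * Real.arctan y + Real.pi) : ℝ) : ℂ)) =
      -(Complex.exp (Complex.I * ((Real.arctan y : ℝ) : ℂ))) ^ 2 := by
    rw [← Complex.exp_nat_mul]
    have : (Complex.I * (((0 : ℝ) * y + ((1 : ℕ) : ℝ) * (2 * Real.arctan y + Real.pi) : ℝ) : ℂ)) =
        ((2 : ℕ) : ℂ) * (Complex.I * ((Real.arctan y : ℝ) : ℂ)) + Real.pi * Complex.I := by
      push_cast; ring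
    rw [this, Complex.exp_add, Complex.exp_pi_mul_I]
    ring
  rw [h2, h1]
  have h3 : (((1 / Real.sqrt (1 + y ^ 2) : ℝ) : ℂ)) ^ 2 = 1 / (1 + (y : ℂ) ^ 2) := by
    rw [← Complex.ofReal_pow, one_div, inv_pow, Real.sq_sqrt hpos.le]
    push_cast
    rw [one_div]
  have h4 : (1 + (y : ℂ) ^ 2) = (1 + Complex.I * y) * (1 - Complex.I * y) := by
    ring_nf
    rw [Complex.I_sq]
    ring
  have h5 : (1 + (y : ℂ) ^ 2) ≠ 0 := by
    have : ((1 + y ^ 2 : ℝ) : ℂ) ≠ 0 := by exact_mod_cast hpos.ne'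
    push_cast at this
    exact this
  have h6 : (1 + Complex.I * y) ≠ 0 := fun h => h5 (by rw [h4, h, zero_mul])
  have h7 : (1 - Complex.I * y) ≠ 0 := fun h => h5 (by rw [h4, h, mul_zero])
  rw [mul_pow, h3, h4]
  field_simp
  ring

/-! ### the semigroup -/

/-- the unitary group -/
noncomputable def T (t : ℝ) : H →L[ℂ] H := M (ex t)

lemma T_zero : T 0 = 1 := by
  unfold T; rw [ex_zero, M_one]

lemma T_add (s t : ℝ) : T (s + t) = T s * T t := by
  unfold T; rw [← ex_mul, M_mul]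

lemma norm_T_le (t : ℝ) : ‖T t‖ ≤ 1 := (norm_M_le _).trans (norm_ex_le t)

lemma ex_cont : Continuous ex := by
  apply ContinuousMap.continuous_of_continuous_uncurry
  change Continuous fun p : ℝ × X => E p.1 0 p.2
  unfold E
  have := th_cont
  fun_prop

lemma T_cont (z : H) : Continuous fun t => T t z := by
  have h1 : Continuous fun t => M (ex t) := M.continuous.comp ex_cont
  exact h1.clm_apply continuous_const

/-- the resolvent -/
lemma integrable_ex : IntegrableOn (fun t : ℝ => ((Real.exp (-t) : ℝ) : ℂ) • ex t) (Ioi 0) := by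
  have h1 : IntegrableOn (fun t : ℝ => Real.exp (-t)) (Ioi 0) := by
    have := exp_neg_integrableOn_Ioi 0 (b := 1) one_pos
    simpa using this
  have hc : Continuous (fun t : ℝ => ((Real.exp (-t) : ℝ) : ℂ) • ex t) := by
    have := ex_cont
    fun_prop
  refine Integrable.mono' h1 hc.aestronglyMeasurable ?_
  filter_upwards with t
  rw [norm_smul, Complex.norm_real, Real.norm_of_nonneg (Real.exp_pos _).le]
  have h2 := norm_ex_le t
  have h3 := Real.exp_pos (-t)
  nlinarith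

lemma integral_ex_apply (x : X) :
    (∫ t in Ioi (0 : ℝ), ((Real.exp (-t) : ℝ) : ℂ) • ex t) x = 1 / (1 - Complex.I * ((x : ℝ) : ℂ)) := by
  have h1 := (ContinuousMap.evalCLM ℂ x).integral_comp_comm integrable_ex
  have h2 : (∫ t in Ioi (0 : ℝ), ((Real.exp (-t) : ℝ) : ℂ) • ex t) x =
      ∫ t in Ioi (0 : ℝ), Complex.exp ((-(1 - Complex.I * ((x : ℝ) : ℂ))) * t) := by
    rw [← ContinuousMap.evalCLM_apply (R := ℂ), ← h1]
    apply integral_congr_ae
    filter_upwards with t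
    rw [ContinuousMap.evalCLM_apply]
    change ((Real.exp (-t) : ℝ) : ℂ) * ex t x = _
    rw [ex_apply, Complex.ofReal_exp, ← Complex.exp_add]
    congr 1
    push_cast
    ring
  rw [h2, integral_exp_mul_complex_Ioi]
  · rw [Complex.ofReal_zero, mul_zero, Complex.exp_zero, neg_div_neg_eq]
  · simp

lemma cogen (z : H) : z - (2 : ℂ) • ∫ t in Ioi (0 : ℝ), ((Real.exp (-t) : ℝ) : ℂ) • T t z = M ca z := by
  have h1 : ∫ t in Ioi (0 : ℝ), ((Real.exp (-t) : ℝ) : ℂ) • T t z =
      M (∫ t in Ioi (0 : ℝ), ((Real.exp (-t) : ℝ) : ℂ) • ex t) z := by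
    have h2 := ((ContinuousLinearMap.apply ℂ H z).comp M).integral_comp_comm integrable_ex
    change _ = ((ContinuousLinearMap.apply ℂ H z).comp M) _
    rw [← h2]
    apply integral_congr_ae
    filter_upwards with t
    change _ = M (((Real.exp (-t) : ℝ) : ℂ) • ex t) z
    rw [map_smul]
    rfl
  rw [h1]
  have h3 : ca = 1 - (2 : ℂ) • ∫ t in Ioi (0 : ℝ), ((Real.exp (-t) : ℝ) : ℂ) • ex t := by
    ext x
    rw [ContinuousMap.sub_apply, ContinuousMap.smul_apply, integral_ex_apply, ca_apply]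
    rfl
  rw [h3, map_sub, map_smul, M_one]
  rfl

/-! ### coefficients -/

lemma inner_M (φ a b : C(X, ℂ)) :
    inner ℂ (M φ (ContinuousMap.toLp 2 m ℂ a)) (ContinuousMap.toLp 2 m ℂ b) =
      ∫ x, b x * conj (φ x * a x) ∂m := by
  rw [M_toLp, ContinuousMap.inner_toLp]
  rfl

lemma inner_ca (s t : ℝ) (n : ℕ) :
    inner ℂ (M (ca ^ n) (ContinuousMap.toLp 2 m ℂ (ex s))) (ContinuousMap.toLp 2 m ℂ (ex t)) =
      conj (Ahat (s - t) n) := by
  rw [inner_M]
  unfold Ahat
  rw [← integral_conj]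
  apply integral_congr_ae
  filter_upwards with x
  rw [E_split, map_mul, map_mul, ex_star, ex_star]
  have e : ex t x * ex (-s) x = ex (-(s - t)) x := by
    rw [← ContinuousMap.mul_apply, ex_mul]
    congr 2
    ring
  rw [← e]
  ring

lemma inner_T (t : ℝ) :
    inner ℂ (T t (ContinuousMap.toLp 2 m ℂ 1)) (ContinuousMap.toLp 2 m ℂ 1) = Ahat (-t) 0 := by
  unfold T
  rw [inner_M]
  unfold Ahat
  apply integral_congr_ae
  filter_upwards with x
  rw [ContinuousMap.one_apply, one_mul, mul_one, ex_star]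
  rfl

/-! ### density -/

lemma ex_one_inj (x y : X) (h : ex 1 x = ex 1 y) : x = y := by
  rw [ex_apply, ex_apply] at h
  have h1 := congrArg Complex.re h
  have e : ∀ z : ℝ, (Complex.exp (Complex.I * ((1 * z : ℝ) : ℂ))).re = Real.cos z := by
    intro z
    rw [mul_comm, Complex.exp_ofReal_mul_I_re, one_mul]
  rw [e, e] at h1
  have hpi := Real.pi_gt_three
  have h2 := Real.injOn_cos (x₁ := (x : ℝ)) (x₂ := (y : ℝ))
    ⟨by linarith [x.2.1], by linarith [x.2.2]⟩ ⟨by linarith [y.2.1], by linarith [y.2.2]⟩ h1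
  exact Subtype.ext h2

/-- the algebra of exponentials -/
noncomputable def alg : StarSubalgebra ℂ C(X, ℂ) where
  toSubalgebra := Algebra.adjoin ℂ (range ex)
  star_mem' := by
    change Algebra.adjoin ℂ (range ex) ≤ star (Algebra.adjoin ℂ (range ex))
    refine Algebra.adjoin_le ?_
    rintro - ⟨s, rfl⟩
    exact Algebra.subset_adjoin ⟨-s, ContinuousMap.ext fun x => (ex_star s x).symm⟩

lemma alg_coe : Subalgebra.toSubmodule alg.toSubalgebra = Submodule.span ℂ (range ex) := by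
  apply Algebra.adjoin_eq_span_of_subset
  refine Subset.trans ?_ Submodule.subset_span
  intro x hx
  refine Submonoid.closure_induction (fun _ => id) ⟨0, ex_zero⟩ ?_ hx
  rintro - - - - ⟨s, rfl⟩ ⟨t, rfl⟩
  exact ⟨s + t, (ex_mul s t).symm⟩

lemma alg_sep : alg.SeparatesPoints := by
  intro x y hxy
  refine ⟨_, ⟨ex 1, Algebra.subset_adjoin ⟨1, rfl⟩, rfl⟩, ?_⟩
  intro h
  exact hxy (ex_one_inj x y h)

lemma span_ex : (Submodule.span ℂ (range ex)).topologicalClosure = ⊤ := by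
  rw [← alg_coe]
  exact congr_arg (Subalgebra.toSubmodule <| StarSubalgebra.toSubalgebra ·)
    (ContinuousMap.starSubalgebra_topologicalClosure_eq_top_of_separatesPoints alg alg_sep)

lemma span_Lp : (Submodule.span ℂ (range fun s => ContinuousMap.toLp (E := ℂ) 2 m ℂ (ex s))).topologicalClosure = ⊤ := by
  have h := (ContinuousMap.toLp_denseRange ℂ m ℂ (p := 2) (by norm_num)).topologicalClosure_map_submodule
      span_ex
  rw [Submodule.map_span] at h
  rw [← h]
  congr 2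
  ext z
  constructor
  · rintro ⟨s, rfl⟩
    exact ⟨ex s, ⟨s, rfl⟩, rfl⟩
  · rintro ⟨_, ⟨s, rfl⟩, rfl⟩
    exact ⟨s, rfl⟩

/-- weak convergence on a dense set suffices -/
lemma weak_of_dense {H : Type} [NormedAddCommGroup H] [InnerProductSpace ℂ H] (S : Set H)
    (hS : (Submodule.span ℂ S).topologicalClosure = ⊤) (B : ℕ → H →L[ℂ] H) (hB : ∀ n, ‖B n‖ ≤ 1)
    (h : ∀ f ∈ S, ∀ g ∈ S, Tendsto (fun n => inner ℂ (B n f) g) atTop (𝓝 0)) (f g : H) :
    Tendsto (fun n => inner ℂ (B n f) g) atTop (𝓝 0) := by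
  have hBn : ∀ n x, ‖B n x‖ ≤ ‖x‖ := fun n x => by
    have := (B n).le_of_opNorm_le (hB n) x
    simpa using this
  have hdense : Dense ((Submodule.span ℂ S : Submodule ℂ H) : Set H) := by
    rw [Submodule.dense_iff_topologicalClosure_eq_top]; exact hS
  -- step 1 : `g ∈ S`, all `f`
  have step1 : ∀ g ∈ S, ∀ f : H, Tendsto (fun n => inner ℂ (B n f) g) atTop (𝓝 0) := by
    intro g hg
    have hspan : ∀ f ∈ Submodule.span ℂ S, Tendsto (fun n => inner ℂ (B n f) g) atTop (𝓝 0) := by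
      intro f hf
      induction hf using Submodule.span_induction with
      | mem x hx => exact h x hx g hg
      | zero => simp
      | add x y _ _ hx hy =>
        have := hx.add hy
        simpa [inner_add_left] using this
      | smul c x _ hx =>
        have := hx.const_mul (conj c)
        simp only [map_smul, inner_smul_left]
        simpa using this
    intro f
    rw [Metric.tendsto_atTop]
    intro ε hε
    obtain ⟨f', hf', hd⟩ := Metric.dense_iff.1 hdense f (ε / (2 * (‖g‖ + 1))) (by positivity)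
    obtain ⟨N, hN⟩ := Metric.tendsto_atTop.1 (hspan f' hd) (ε / 2) (by positivity)
    refine ⟨N, fun n hn => ?_⟩
    have h1 := hN n hn
    rw [dist_zero_right] at h1 ⊢
    have e : inner ℂ (B n f) g = inner ℂ (B n f') g + inner ℂ (B n (f - f')) g := by
      rw [map_sub, inner_sub_left]; ring
    rw [e]
    have h2 : ‖inner ℂ (B n (f - f')) g‖ ≤ ε / 2 := by
      refine (norm_inner_le_norm _ _).trans ?_
      have h3 : ‖f - f'‖ ≤ ε / (2 * (‖g‖ + 1)) := by
        rw [Metric.mem_ball, dist_eq_norm, norm_sub_rev] at hf'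
        exact hf'.le
      calc ‖B n (f - f')‖ * ‖g‖ ≤ (ε / (2 * (‖g‖ + 1))) * (‖g‖ + 1) := by
            apply mul_le_mul ((hBn n _).trans h3) (by linarith) (norm_nonneg _) (by positivity)
        _ = ε / 2 := by
            have : ‖g‖ + 1 ≠ 0 := by positivity
            field_simp
    refine (norm_add_le _ _).trans_lt ?_
    linarith
  have hspan : ∀ g ∈ Submodule.span ℂ S, Tendsto (fun n => inner ℂ (B n f) g) atTop (𝓝 0) := by
    intro g hg
    induction hg using Submodule.span_induction with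
    | mem x hx => exact step1 x hx f
    | zero => simp
    | add x y _ _ hx hy =>
      have := hx.add hy
      simpa [inner_add_right] using this
    | smul c x _ hx =>
      have := hx.const_mul c
      simpa [inner_smul_right] using this
  rw [Metric.tendsto_atTop]
  intro ε hε
  obtain ⟨g', hg', hd⟩ := Metric.dense_iff.1 hdense g (ε / (2 * (‖f‖ + 1))) (by positivity)
  obtain ⟨N, hN⟩ := Metric.tendsto_atTop.1 (hspan g' hd) (ε / 2) (by positivity)
  refine ⟨N, fun n hn => ?_⟩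
  have h1 := hN n hn
  rw [dist_zero_right] at h1 ⊢
  have e : inner ℂ (B n f) g = inner ℂ (B n f) g' + inner ℂ (B n f) (g - g') := by
    rw [inner_sub_right]; ring
  rw [e]
  have h2 : ‖inner ℂ (B n f) (g - g')‖ ≤ ε / 2 := by
    refine (norm_inner_le_norm _ _).trans ?_
    have h3 : ‖g - g'‖ ≤ ε / (2 * (‖f‖ + 1)) := by
      rw [Metric.mem_ball, dist_eq_norm, norm_sub_rev] at hg'
      exact hg'.le
    calc ‖B n f‖ * ‖g - g'‖ ≤ (‖f‖ + 1) * (ε / (2 * (‖f‖ + 1))) := by
          apply mul_le_mul ((hBn n _).trans (by linarith)) h3 (norm_nonneg _) (by positivity)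
      _ = ε / 2 := by
          have : ‖f‖ + 1 ≠ 0 := by positivity
          field_simp
  refine (norm_add_le _ _).trans_lt ?_
  linarith

lemma norm_ca_le : ‖ca‖ ≤ 1 := by
  rw [ContinuousMap.norm_le _ zero_le_one]
  intro x
  exact (norm_E 0 1 x).le

/-- the powers of the cogenerator converge weakly to `0` -/
theorem weak_V (f g : H) : Tendsto (fun n : ℕ => inner ℂ (M (ca ^ n) f) g) atTop (𝓝 0) := by
  apply weak_of_dense _ span_Lp (fun n => M (ca ^ n))
  · intro n
    refine (norm_M_le _).trans ?_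
    rw [ContinuousMap.norm_le _ zero_le_one]
    intro x
    rw [ca_pow]
    exact (norm_E 0 n x).le
  · rintro _ ⟨s, rfl⟩ _ ⟨t, rfl⟩
    simp only [inner_ca]
    have h := Ahat_tendsto (s - t)
    have h2 := (Complex.continuous_conj.tendsto _).comp h
    rw [map_zero] at h2
    exact h2

/-- the group does not converge weakly to `0` -/
theorem not_weak_T : ¬ ∀ f g : H, Tendsto (fun t : ℝ => inner ℂ (T t f) g) atTop (𝓝 0) := by
  intro h
  apply Ahat_not_tendsto
  refine (h (ContinuousMap.toLp 2 m ℂ 1) (ContinuousMap.toLp 2 m ℂ 1)).congr (fun t => ?_)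
  exact inner_T t

end Pool.Agent.K3h48.WS
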